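import Pool.Agent.Helper32_ABCT.Stmts

set_option autoImplicit false
open MvPolynomial

namespace ABCT.H36

theorem rename_comm_inl {σ τ : Type} (p : MvPolynomial σ ℕ) :
    rename (Equiv.sumComm σ τ) (rename Sum.inl p) = rename Sum.inr p := by
  rw [rename_rename]; rfl

theorem rename_comm_inr {σ τ : Type} (p : MvPolynomial τ ℕ) :
    rename (Equiv.sumComm σ τ) (rename Sum.inr p) = rename Sum.inl p := by
  rw [rename_rename]; rfl

theorem cswap : CswapStmt := by
  constructor
  · intro S T _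
    refine ⟨?_, fun I => ?_⟩
    · show (Net.dsum S T).M = (Net.dsum T S).M
      ext I
      rw [Net.M, Net.M]
      simp only [Finset.mem_image, Finset.mem_product, Prod.exists]
      constructor
      · rintro ⟨J, K, ⟨hJ, hK⟩, rfl⟩
        exact ⟨K, J, ⟨hK, hJ⟩, Finset.union_comm _ _⟩
      · rintro ⟨J, K, ⟨hJ, hK⟩, rfl⟩
        exact ⟨K, J, ⟨hK, hJ⟩, Finset.union_comm _ _⟩
    · show rename (Equiv.sumComm S.G T.G) ((Net.dsum S T).Δ I) = (Net.dsum T S).Δ I
      rw [Net.Δ, Net.Δ, Finset.union_comm T.E S.E]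
      split_ifs with h
      · rw [map_mul, rename_comm_inl, rename_comm_inr, mul_comm]
      · rw [map_zero]
  · intro S T q _
    refine ⟨?_, fun I => ?_⟩
    · show (Net.tsum S T q).M = (Net.tsum T S q).M
      ext I
      rw [Net.M, Net.M]
      simp only [Finset.mem_image, Finset.mem_filter, Finset.mem_product, Prod.exists]
      constructor
      · rintro ⟨J, K, ⟨⟨hJ, hK⟩, hq⟩, rfl⟩
        refine ⟨K, J, ⟨⟨hK, hJ⟩, ?_⟩, by rw [Finset.union_comm]⟩
        rcases hq with h | h
        · exact Or.inr ⟨h.2, h.1⟩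
        · exact Or.inl ⟨h.2, h.1⟩
      · rintro ⟨J, K, ⟨⟨hJ, hK⟩, hq⟩, rfl⟩
        refine ⟨K, J, ⟨⟨hK, hJ⟩, ?_⟩, by rw [Finset.union_comm]⟩
        rcases hq with h | h
        · exact Or.inr ⟨h.2, h.1⟩
        · exact Or.inl ⟨h.2, h.1⟩
    · show rename (Equiv.sumComm S.G T.G) ((Net.tsum S T q).Δ I) = (Net.tsum T S q).Δ I
      rw [Net.Δ, Net.Δ, Finset.union_comm (T.E.erase q) (S.E.erase q)]
      split_ifs with h
      · rw [map_add, map_mul, map_mul, rename_comm_inl, rename_comm_inr, rename_comm_inl,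
          rename_comm_inr, add_comm, mul_comm, mul_comm (rename Sum.inr _)]
      · rw [map_zero]

end ABCT.H36
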