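import Pool.Agent.Helper32_ABCT.EStmts

set_option autoImplicit false
open MvPolynomial

namespace ABCT.H36

open FlatCell

theorem frExt {V : Type} {L : Type*} [Field L] (f g : Fr V →+* L)
    (hC : ∀ a : ℂ, f (algebraMap ℂ (Fr V) a) = g (algebraMap ℂ (Fr V) a))
    (hX : ∀ v, f (xx v) = g (xx v)) : f = g := by
  apply IsLocalization.ringHom_ext (nonZeroDivisors (MvPolynomial V ℂ))
  apply MvPolynomial.ringHom_ext
  · intro a
    exact hC a
  · intro v; exact hX v

theorem liftF_trans {V W U : Type} (ι : V ↪ W) (κ : W ↪ U) (f : Fr V) :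
    liftF κ (liftF ι f) = liftF (ι.trans κ) f := by
  have : (liftF κ).comp (liftF ι) = liftF (ι.trans κ) := by
    apply frExt
    · intro a
      rw [RingHom.comp_apply, liftF_C, liftF_C, liftF_C]
    · intro v
      rw [RingHom.comp_apply, liftF_x, liftF_x, liftF_x]; rfl
  exact congrArg (fun g => g f) this

theorem liftF_id {V : Type} (ι : V ↪ V) (h : ∀ v, ι v = v) (f : Fr V) : liftF ι f = f := by
  have : liftF ι = RingHom.id _ := by
    apply frExt
    · intro a
      rw [liftF_C]; rfl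
    · intro v
      rw [liftF_x, h]; rfl
  exact congrArg (fun g => g f) this

theorem xx_ne {V : Type} (v : V) : (xx v : Fr V) ≠ 0 := (PosF.x v).ne_zero

/-- the values of facet data in context -/
def Vals (C : Ctx) {N N' : Net} (φ : FacetData N.flat N'.flat) : Prop :=
    (∀ x ∈ N.E, ∀ i ∈ C.blk x, (C.fd φ).lam (Sum.inl i) = φ.lam (Sum.inl x) ∧
      (C.fd φ).w (Sum.inl i) =
        xx (Sum.inl i) * liftF (C.vi N') (φ.w (Sum.inl x) / xx (Sum.inl x))) ∧
    (∀ i ∈ (C.app N).E, (∀ x ∈ N.E, i ∉ C.blk x) → (C.fd φ).lam (Sum.inl i) = 0 ∧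
      (C.fd φ).w (Sum.inl i) = xx (Sum.inl i)) ∧
    (∀ h : N.G, (C.fd φ).lam (Sum.inr (C.gi N h)) = φ.lam (Sum.inr h) ∧
      (C.fd φ).w (Sum.inr (C.gi N h)) = liftF (C.vi N') (φ.w (Sum.inr h))) ∧
    (∀ h : C.R, (C.fd φ).lam (Sum.inr (C.go N h)) = 0 ∧
      (C.fd φ).w (Sum.inr (C.go N h)) = xx (Sum.inr (C.go N' h)))

theorem vals_hole {N N' : Net} (φ : FacetData N.flat N'.flat) : Vals Ctx.hole φ := by
  refine ⟨?_, ?_, ?_, ?_⟩
  · intro x hx i hi
    have : i = x := Finset.mem_singleton.1 hi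
    subst this
    refine ⟨rfl, ?_⟩
    have h1 : liftF (Ctx.hole.vi N') (φ.w (Sum.inl i) / xx (Sum.inl i)) =
        φ.w (Sum.inl i) / xx (Sum.inl i) := by
      refine liftF_id (V := N'.flat.V) _ ?_ _
      rintro (j | h) <;> rfl
    have h2 : φ.w (Sum.inl i) = xx (Sum.inl i) * (φ.w (Sum.inl i) / xx (Sum.inl i)) :=
      (mul_div_cancel₀ _ (xx_ne _)).symm
    rw [h1]
    exact h2
  · intro i hi h
    exact absurd (Finset.mem_singleton_self i) (h i hi)
  · intro h
    refine ⟨rfl, ?_⟩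
    have h1 : liftF (Ctx.hole.vi N') (φ.w (Sum.inr h)) = φ.w (Sum.inr h) := by
      refine liftF_id (V := N'.flat.V) _ ?_ _
      rintro (j | h) <;> rfl
    rw [h1]; rfl
  · intro h
    exact h.elim

theorem trans_dsumL (C : Ctx) (N' T : Net) :
    (C.vi N').trans (vdL (C.app N') T) = (Ctx.dsumL C T).vi N' := by
  apply Function.Embedding.ext
  rintro (j | h) <;> rfl

theorem trans_tsumL (C : Ctx) (N' T : Net) (q : ℕ) :
    (C.vi N').trans (vtL (C.app N') T q) = (Ctx.tsumL C T q).vi N' := by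
  apply Function.Embedding.ext
  rintro (j | h) <;> rfl

theorem vals_dsumL (hB : CtxBStmt) (C : Ctx) (T : Net) {N N' : Net}
    (φ : FacetData N.flat N'.flat) (hV : ((Ctx.dsumL C T).app N).Valid) (ih : Vals C φ) :
    Vals (Ctx.dsumL C T) φ := by
  obtain ⟨i1, i2, i3, i4⟩ := ih
  obtain ⟨v1, v2, v3⟩ := hV
  have hb := hB C N v1
  rw [Finset.disjoint_left] at v3
  refine ⟨?_, ?_, ?_, ?_⟩
  · intro x hx i hi
    have hi' : i ∈ C.blk x := hi
    have hiT : i ∉ T.E := v3 (hb.1 x hx hi')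
    obtain ⟨a, b⟩ := i1 x hx i hi'
    constructor
    · show (if i ∈ T.E then 0 else (C.fd φ).lam (Sum.inl i)) = _
      rw [if_neg hiT, a]
    · show (if i ∈ T.E then FlatCell.x _ (Sum.inl i) else
        liftF (vdL (C.app N') T) ((C.fd φ).w (Sum.inl i))) = _
      rw [if_neg hiT, b, map_mul, liftF_trans, trans_dsumL, liftF_x]
      rfl
  · intro i hi h
    have h' : ∀ x ∈ N.E, i ∉ C.blk x := h
    by_cases hiT : i ∈ T.E
    · constructor
      · show (if i ∈ T.E then 0 else (C.fd φ).lam (Sum.inl i)) = _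
        rw [if_pos hiT]
      · show (if i ∈ T.E then FlatCell.x _ (Sum.inl i) else
          liftF (vdL (C.app N') T) ((C.fd φ).w (Sum.inl i))) = _
        rw [if_pos hiT]; rfl
    · have hiE : i ∈ (C.app N).E := by
        rcases Finset.mem_union.1 hi with h1 | h1
        · exact h1
        · exact absurd h1 hiT
      obtain ⟨a, b⟩ := i2 i hiE h'
      constructor
      · show (if i ∈ T.E then 0 else (C.fd φ).lam (Sum.inl i)) = _
        rw [if_neg hiT, a]
      · show (if i ∈ T.E then FlatCell.x _ (Sum.inl i) else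
          liftF (vdL (C.app N') T) ((C.fd φ).w (Sum.inl i))) = _
        rw [if_neg hiT, b, liftF_x]; rfl
  · intro h
    obtain ⟨a, b⟩ := i3 h
    refine ⟨a, ?_⟩
    show liftF (vdL (C.app N') T) ((C.fd φ).w (Sum.inr (C.gi N h))) = _
    rw [b, liftF_trans, trans_dsumL]; rfl
  · rintro (h | h)
    · obtain ⟨a, b⟩ := i4 h
      refine ⟨a, ?_⟩
      show liftF (vdL (C.app N') T) ((C.fd φ).w (Sum.inr (C.go N h))) = _
      rw [b, liftF_x]; rfl
    · exact ⟨rfl, rfl⟩

theorem vals_tsumL (hB : CtxBStmt) (C : Ctx) (T : Net) (q : ℕ) {N N' : Net}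
    (φ : FacetData N.flat N'.flat) (hV : ((Ctx.tsumL C T q).app N).Valid) (ih : Vals C φ) :
    Vals (Ctx.tsumL C T q) φ := by
  obtain ⟨i1, i2, i3, i4⟩ := ih
  obtain ⟨v1, v2, _, _, q1, q2, v3, _⟩ := hV
  have hb := hB C N v1
  rw [Finset.disjoint_left] at v3
  have el : ∀ i, ((Ctx.tsumL C T q).fd φ).lam (Sum.inl i) =
      if i ∈ T.E.erase q then (C.fd φ).lam (Sum.inl q) else (C.fd φ).lam (Sum.inl i) := fun _ => rfl
  have ew : ∀ i, ((Ctx.tsumL C T q).fd φ).w (Sum.inl i) =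
      if i ∈ T.E.erase q then
          FlatCell.x _ (Sum.inl i) *
            liftF (vtL (C.app N') T q) ((C.fd φ).w (Sum.inl q) / (C.app N').flat.x (Sum.inl q))
        else liftF (vtL (C.app N') T q) ((C.fd φ).w (Sum.inl i)) := fun _ => rfl
  have eb : ∀ x, (Ctx.tsumL C T q).blk x =
      if q ∈ C.blk x then (C.blk x).erase q ∪ T.E.erase q else C.blk x := fun _ => rfl
  refine ⟨?_, ?_, ?_, ?_⟩
  · intro x hx i hi
    rw [eb] at hi
    rw [el, ew]
    by_cases hiT : i ∈ T.E.erase q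
    · rw [if_pos hiT, if_pos hiT]
      by_cases hq : q ∈ C.blk x
      · obtain ⟨a, b⟩ := i1 x hx q hq
        refine ⟨a, ?_⟩
        rw [b, flat_x, flat_x, mul_div_cancel_left₀ _ (xx_ne _), liftF_trans, trans_tsumL]
        rfl
      · rw [if_neg hq] at hi
        have hiq : i ≠ q := by rintro rfl; exact hq hi
        exact absurd hiT (v3 (Finset.mem_erase.2 ⟨hiq, hb.1 x hx hi⟩))
    · rw [if_neg hiT, if_neg hiT]
      have hi' : i ∈ C.blk x := by
        by_cases hq : q ∈ C.blk x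
        · rw [if_pos hq] at hi
          rcases Finset.mem_union.1 hi with h1 | h1
          · exact Finset.mem_of_mem_erase h1
          · exact absurd h1 hiT
        · rwa [if_neg hq] at hi
      obtain ⟨a, b⟩ := i1 x hx i hi'
      refine ⟨a, ?_⟩
      rw [b, map_mul, liftF_trans, trans_tsumL, liftF_x]
      rfl
  · intro i hi h
    rw [el, ew]
    by_cases hiT : i ∈ T.E.erase q
    · rw [if_pos hiT, if_pos hiT]
      have hq : ∀ x ∈ N.E, q ∉ C.blk x := by
        intro x hx hq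
        apply h x hx
        rw [eb, if_pos hq]
        exact Finset.mem_union_right _ hiT
      obtain ⟨a, b⟩ := i2 q q1 hq
      refine ⟨a, ?_⟩
      rw [b, flat_x, flat_x, div_self (xx_ne _), map_one, mul_one]
      rfl
    · rw [if_neg hiT, if_neg hiT]
      have hiE : i ∈ (C.app N).E.erase q := by
        rcases Finset.mem_union.1 hi with h1 | h1
        · exact h1
        · exact absurd h1 hiT
      have h' : ∀ x ∈ N.E, i ∉ C.blk x := by
        intro x hx hix
        apply h x hx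
        rw [eb]
        split_ifs
        · exact Finset.mem_union_left _ (Finset.mem_erase.2 ⟨Finset.ne_of_mem_erase hiE, hix⟩)
        · exact hix
      obtain ⟨a, b⟩ := i2 i (Finset.mem_of_mem_erase hiE) h'
      refine ⟨a, ?_⟩
      rw [b, liftF_x]; rfl
  · intro h
    obtain ⟨a, b⟩ := i3 h
    refine ⟨a, ?_⟩
    show liftF (vtL (C.app N') T q) ((C.fd φ).w (Sum.inr (C.gi N h))) = _
    rw [b, liftF_trans, trans_tsumL]; rfl
  · rintro (h | h)
    · obtain ⟨a, b⟩ := i4 h
      refine ⟨a, ?_⟩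
      show liftF (vtL (C.app N') T q) ((C.fd φ).w (Sum.inr (C.go N h))) = _
      rw [b, liftF_x]; rfl
    · exact ⟨rfl, rfl⟩

/-- the injection used by `isoFD` -/
def swapV (A B : Type) : (ℕ ⊕ (A ⊕ B)) ↪ (ℕ ⊕ (B ⊕ A)) :=
  ⟨Sum.map id (Equiv.sumComm A B), Function.Injective.sumMap Function.injective_id
    (Equiv.sumComm A B).injective⟩

theorem lift_aux {V W U : Type} (ι : V ↪ W) (κ : W ↪ U) (v : W) (f : Fr V) (u : U)
    (hu : κ v = u) (ν : V ↪ U) (hν : ι.trans κ = ν) :
    liftF κ (xx v * liftF ι f) = xx u * liftF ν f := by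
  rw [map_mul, liftF_x, liftF_trans, hu, hν]

theorem trans_dsumR (C : Ctx) (N' T : Net) :
    ((Ctx.dsumL C T).vi N').trans (swapV (C.app N').G T.G) = (Ctx.dsumR T C).vi N' := by
  apply Function.Embedding.ext
  rintro (j | h) <;> rfl

theorem trans_tsumR (C : Ctx) (N' T : Net) (q : ℕ) :
    ((Ctx.tsumL C T q).vi N').trans (swapV (C.app N').G T.G) = (Ctx.tsumR T C q).vi N' := by
  apply Function.Embedding.ext
  rintro (j | h) <;> rfl

theorem vals_dsumR (C : Ctx) (T : Net) {N N' : Net}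
    (φ : FacetData N.flat N'.flat) (ih : Vals (Ctx.dsumL C T) φ) :
    Vals (Ctx.dsumR T C) φ := by
  obtain ⟨i1, i2, i3, i4⟩ := ih
  refine ⟨?_, ?_, ?_, ?_⟩
  · intro x hx i hi
    obtain ⟨a, b⟩ := i1 x hx i hi
    refine ⟨a, ?_⟩
    show liftF (swapV (C.app N').G T.G) (((Ctx.dsumL C T).fd φ).w (Sum.inl i)) = _
    rw [b]
    exact lift_aux ((Ctx.dsumL C T).vi N') (swapV (C.app N').G T.G) _ _ _ rfl _
      (trans_dsumR C N' T)
  · intro i hi h
    have hi' : i ∈ ((Ctx.dsumL C T).app N).E := by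
      rcases Finset.mem_union.1 hi with h1 | h1
      · exact Finset.mem_union_right _ h1
      · exact Finset.mem_union_left _ h1
    obtain ⟨a, b⟩ := i2 i hi' h
    refine ⟨a, ?_⟩
    show liftF (swapV (C.app N').G T.G) (((Ctx.dsumL C T).fd φ).w (Sum.inl i)) = _
    rw [b]
    erw [liftF_x]
    rfl
  · intro h
    obtain ⟨a, b⟩ := i3 h
    refine ⟨a, ?_⟩
    show liftF (swapV (C.app N').G T.G)
      (((Ctx.dsumL C T).fd φ).w (Sum.inr ((Ctx.dsumL C T).gi N h))) = _
    rw [b]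
    erw [liftF_trans, trans_dsumR]; rfl
  · rintro (h | h)
    · obtain ⟨a, b⟩ := i4 (Sum.inr h)
      refine ⟨a, ?_⟩
      show liftF (swapV (C.app N').G T.G)
        (((Ctx.dsumL C T).fd φ).w (Sum.inr ((Ctx.dsumL C T).go N (Sum.inr h)))) = _
      rw [b]
      erw [liftF_x]
      rfl
    · obtain ⟨a, b⟩ := i4 (Sum.inl h)
      refine ⟨a, ?_⟩
      show liftF (swapV (C.app N').G T.G)
        (((Ctx.dsumL C T).fd φ).w (Sum.inr ((Ctx.dsumL C T).go N (Sum.inl h)))) = _
      rw [b]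
      erw [liftF_x]
      rfl

theorem vals_tsumR (C : Ctx) (T : Net) (q : ℕ) {N N' : Net}
    (φ : FacetData N.flat N'.flat) (ih : Vals (Ctx.tsumL C T q) φ) :
    Vals (Ctx.tsumR T C q) φ := by
  obtain ⟨i1, i2, i3, i4⟩ := ih
  refine ⟨?_, ?_, ?_, ?_⟩
  · intro x hx i hi
    obtain ⟨a, b⟩ := i1 x hx i hi
    refine ⟨a, ?_⟩
    show liftF (swapV (C.app N').G T.G) (((Ctx.tsumL C T q).fd φ).w (Sum.inl i)) = _
    rw [b]
    exact lift_aux ((Ctx.tsumL C T q).vi N') (swapV (C.app N').G T.G) _ _ _ rfl _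
      (trans_tsumR C N' T q)
  · intro i hi h
    have hi' : i ∈ ((Ctx.tsumL C T q).app N).E := by
      rcases Finset.mem_union.1 hi with h1 | h1
      · exact Finset.mem_union_right _ h1
      · exact Finset.mem_union_left _ h1
    obtain ⟨a, b⟩ := i2 i hi' h
    refine ⟨a, ?_⟩
    show liftF (swapV (C.app N').G T.G) (((Ctx.tsumL C T q).fd φ).w (Sum.inl i)) = _
    rw [b]
    erw [liftF_x]
    rfl
  · intro h
    obtain ⟨a, b⟩ := i3 h
    refine ⟨a, ?_⟩
    show liftF (swapV (C.app N').G T.G)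
      (((Ctx.tsumL C T q).fd φ).w (Sum.inr ((Ctx.tsumL C T q).gi N h))) = _
    rw [b]
    erw [liftF_trans, trans_tsumR]; rfl
  · rintro (h | h)
    · obtain ⟨a, b⟩ := i4 (Sum.inr h)
      refine ⟨a, ?_⟩
      show liftF (swapV (C.app N').G T.G)
        (((Ctx.tsumL C T q).fd φ).w (Sum.inr ((Ctx.tsumL C T q).go N (Sum.inr h)))) = _
      rw [b]
      erw [liftF_x]
      rfl
    · obtain ⟨a, b⟩ := i4 (Sum.inl h)
      refine ⟨a, ?_⟩
      show liftF (swapV (C.app N').G T.G)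
        (((Ctx.tsumL C T q).fd φ).w (Sum.inr ((Ctx.tsumL C T q).go N (Sum.inl h)))) = _
      rw [b]
      erw [liftF_x]
      rfl

theorem ctxv (hB : CtxBStmt) : CtxVStmt := by
  intro C
  induction C with
  | hole => intro N N' φ _; exact vals_hole φ
  | dsumL C T ih => intro N N' φ hV; exact vals_dsumL hB C T φ hV (ih N N' φ hV.1)
  | dsumR T C ih =>
    intro N N' φ hV
    have hV' : ((Ctx.dsumL C T).app N).Valid := Net.Valid.dsum_symm hV
    exact vals_dsumR C T φ (vals_dsumL hB C T φ hV' (ih N N' φ hV'.1))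
  | tsumL C T q ih => intro N N' φ hV; exact vals_tsumL hB C T q φ hV (ih N N' φ hV.1)
  | tsumR T C q ih =>
    intro N N' φ hV
    have hV' : ((Ctx.tsumL C T q).app N).Valid := Net.Valid.tsum_symm hV
    exact vals_tsumR C T q φ (vals_tsumL hB C T q φ hV' (ih N N' φ hV'.1))

end ABCT.H36
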