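import Pool.Agent.Helper32_ABCT.Stmts
import Pool.Agent.Helper32_ABCT.Api3

set_option autoImplicit false
open MvPolynomial Filter Topology

namespace ABCT.H36

/-- all coordinates are the label monomials. -/
def MonoCell (S : Net) : Prop :=
  ∀ (x : S.flat.V → ℝ) (I : Finset ℕ), S.flat.ev x I = if I ∈ S.M then ∏ i ∈ I, x (Sum.inl i) else 0

/-- every positive vector is attained. -/
def FreeCell (S : Net) : Prop :=
  ∀ z : Finset ℕ → ℝ, (∀ I, I ∉ S.M → z I = 0) → (∀ I ∈ S.M, 0 < z I) → z ∈ S.flat.Z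

theorem mono_black (l : Finset ℕ) : MonoCell (Net.black l) := by
  intro x I
  rw [ev_eq]
  have : (Net.black l).flat.Δ I = if I ∈ (Net.black l).M then 1 else 0 := rfl
  rw [this]
  split_ifs
  · rw [eval₂_one, mul_one]
  · rw [eval₂_zero, mul_zero]

theorem mono_white (l : Finset ℕ) : MonoCell (Net.white l) := by
  intro x I
  rw [ev_eq]
  have : (Net.white l).flat.Δ I = if I ∈ (Net.white l).M then 1 else 0 := rfl
  rw [this]
  split_ifs
  · rw [eval₂_one, mul_one]
  · rw [eval₂_zero, mul_zero]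

theorem mono_dsum {S T : Net} (hV : (Net.dsum S T).Valid) (hS : MonoCell S) (hT : MonoCell T) :
    MonoCell (Net.dsum S T) := by
  intro y I
  split_ifs with h
  · obtain ⟨J, hJ, K, hK, rfl⟩ := (dsum_M I).1 h
    rw [dsum_ev hV y J K hJ hK, hS, hT, if_pos hJ, if_pos hK]
    obtain ⟨h1, h2, h3⟩ := hV
    have wS := Net.wf' S h1
    have wT := Net.wf' T h2
    have hd : Disjoint J K := by
      rw [Finset.disjoint_left] at h3 ⊢
      intro a ha hb
      exact h3 (wS.sub J hJ ha) (wT.sub K hK hb)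
    rw [Finset.prod_union hd]
    rfl
  · exact ev_ne_mem hV y I h

theorem closure_sub {S : Net} (hS : MonoCell S) {z : Finset ℕ → ℝ} (hz : z ∈ closure S.flat.Z) :
    (∀ I, I ∉ S.M → z I = 0) ∧ ∀ I, 0 ≤ z I := by
  have hcl : IsClosed {z : Finset ℕ → ℝ | (∀ I, I ∉ S.M → z I = 0) ∧ ∀ I, 0 ≤ z I} := by
    have e : {z : Finset ℕ → ℝ | (∀ I, I ∉ S.M → z I = 0) ∧ ∀ I, 0 ≤ z I} =
        (⋂ I, ⋂ (_ : I ∉ S.M), {z : Finset ℕ → ℝ | z I = 0}) ∩ ⋂ I, {z | 0 ≤ z I} := by
      ext w; simp
    rw [e]
    apply IsClosed.inter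
    · refine isClosed_iInter fun I => isClosed_iInter fun _ => ?_
      exact isClosed_eq (continuous_apply I) continuous_const
    · refine isClosed_iInter fun I => ?_
      exact isClosed_le continuous_const (continuous_apply I)
  refine closure_minimal ?_ hcl hz
  rintro _ ⟨x, hx, rfl⟩
  refine ⟨fun I hI => ?_, fun I => ?_⟩
  · rw [hS, if_neg hI]
  · rw [hS]
    split_ifs
    · exact Finset.prod_nonneg fun i _ => (hx _).le
    · exact le_rfl

theorem mem_closure {S : Net} (hS : FreeCell S) {z : Finset ℕ → ℝ} (h0 : ∀ I, I ∉ S.M → z I = 0)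
    (h1 : ∀ I ∈ S.M, 0 ≤ z I) : z ∈ closure S.flat.Z := by
  classical
  have ht : Tendsto (fun (n : ℕ) (I : Finset ℕ) =>
      z I + (if I ∈ S.M then 1 / ((n : ℝ) + 1) else 0)) atTop (𝓝 z) := by
    rw [tendsto_pi_nhds]
    intro I
    have h2 : Tendsto (fun n : ℕ => z I + (if I ∈ S.M then 1 / ((n : ℝ) + 1) else 0)) atTop
        (𝓝 (z I + 0)) := by
      apply Tendsto.add tendsto_const_nhds
      split_ifs
      · exact tendsto_one_div_add_atTop_nhds_zero_nat
      · exact tendsto_const_nhds
    rwa [add_zero] at h2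
  refine mem_closure_of_tendsto ht (Filter.Eventually.of_forall fun n => ?_)
  apply hS
  · intro I hI
    rw [if_neg hI, h0 I hI, add_zero]
  · intro I hI
    rw [if_pos hI]
    have := h1 I hI
    positivity

theorem free_black (l : Finset ℕ) : FreeCell (Net.black l) := by
  classical
  intro z h0 h1
  refine ⟨fun v => Sum.elim (fun i => if i ∈ l then z {i} else 1) (fun _ => 1) v, ?_, ?_⟩
  · rintro (i | h)
    · simp only [Sum.elim_inl]
      split_ifs with hi
      · exact h1 _ (Finset.mem_image_of_mem _ hi)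
      · exact one_pos
    · exact one_pos
  · funext I
    rw [mono_black]
    split_ifs with hI
    · obtain ⟨i, hi, rfl⟩ := Finset.mem_image.1 hI
      rw [Finset.prod_singleton]
      simp [hi]
    · exact h0 I hI

theorem free_white (l : Finset ℕ) (hl : 2 ≤ l.card) : FreeCell (Net.white l) := by
  classical
  intro z h0 h1
  set Z : ℝ := ∏ j ∈ l, z (l.erase j) with hZ
  have hpos : ∀ j ∈ l, 0 < z (l.erase j) := fun j hj => h1 _ (Finset.mem_image_of_mem _ hj)
  have hZpos : 0 < Z := Finset.prod_pos hpos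
  set P : ℝ := Z ^ (1 / ((l.card - 1 : ℕ) : ℝ)) with hP
  have hPpos : 0 < P := Real.rpow_pos_of_pos hZpos _
  have hPpow : P ^ (l.card - 1) = Z := by
    rw [hP, ← Real.rpow_natCast, ← Real.rpow_mul hZpos.le]
    rw [one_div, inv_mul_cancel₀, Real.rpow_one]
    have : (0 : ℝ) < ((l.card - 1 : ℕ) : ℝ) := by
      exact_mod_cast (by omega : 0 < l.card - 1)
    exact this.ne'
  refine ⟨fun v => Sum.elim (fun i => if i ∈ l then P / z (l.erase i) else 1) (fun _ => 1) v, ?_, ?_⟩
  · rintro (i | h)
    · simp only [Sum.elim_inl]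
      split_ifs with hi
      · exact div_pos hPpos (hpos i hi)
      · exact one_pos
    · exact one_pos
  · funext I
    rw [mono_white]
    split_ifs with hI
    · obtain ⟨i, hi, rfl⟩ := Finset.mem_image.1 hI
      have e1 : ∏ j ∈ l.erase i, (Sum.elim (fun i => if i ∈ l then P / z (l.erase i) else 1)
          (fun _ => 1) (Sum.inl j : ℕ ⊕ (Net.white l).G) : ℝ) = ∏ j ∈ l.erase i, P / z (l.erase j) := by
        apply Finset.prod_congr rfl
        intro j hj
        simp only [Sum.elim_inl]
        rw [if_pos (Finset.mem_of_mem_erase hj)]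
      refine Eq.trans ?_ e1.symm
      rw [Finset.prod_div_distrib, Finset.prod_const, Finset.card_erase_of_mem hi, hPpow, hZ,
        ← Finset.mul_prod_erase l (fun j => z (l.erase j)) hi]
      rw [mul_div_assoc, div_self, mul_one]
      exact (Finset.prod_pos fun j hj => hpos j (Finset.mem_of_mem_erase hj)).ne'
    · exact h0 I hI

theorem free_sub {S T : Net} (mS : MonoCell S) (mT : MonoCell T) (hST : T.M ⊆ S.M)
    (hS : FreeCell S) : FreeCell T := by
  classical
  intro z h0 h1
  obtain ⟨x, hx, hz⟩ := hS (fun I => if I ∈ T.M then z I else if I ∈ S.M then 1 else 0)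
    (fun I hI => by rw [if_neg fun h => hI (hST h), if_neg hI])
    (fun I hI => by
      show 0 < (if I ∈ T.M then z I else if I ∈ S.M then 1 else 0)
      split_ifs with h
      · exact h1 I h
      · exact one_pos)
  refine ⟨fun v => Sum.elim (fun i => x (Sum.inl i)) (fun _ => 1) v, ?_, ?_⟩
  · rintro (i | h)
    · exact hx _
    · exact one_pos
  · funext I
    rw [mT]
    split_ifs with hI
    · have := congrFun hz I
      rw [mS] at this
      simp only [if_pos hI, if_pos (hST hI)] at this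
      exact this
    · exact h0 I hI

theorem M_bw (l : Finset ℕ) (x : ℕ) (I : Finset ℕ) :
    I ∈ (Net.dsum (Net.white {x}) (Net.black (l.erase x))).M ↔ ∃ y ∈ l.erase x, I = {y} := by
  rw [dsum_M]
  constructor
  · rintro ⟨J, hJ, K, hK, rfl⟩
    obtain ⟨a, ha, rfl⟩ := Finset.mem_image.1 hJ
    obtain ⟨b, hb, rfl⟩ := Finset.mem_image.1 hK
    rw [Finset.mem_singleton] at ha
    subst ha
    refine ⟨b, hb, ?_⟩
    simp
  · rintro ⟨y, hy, rfl⟩
    refine ⟨∅, ?_, {y}, Finset.mem_image_of_mem _ hy, by simp⟩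
    exact Finset.mem_image.2 ⟨x, Finset.mem_singleton_self x, by simp⟩

theorem M_wb (l : Finset ℕ) (x : ℕ) (hx : x ∈ l) (I : Finset ℕ) :
    I ∈ (Net.dsum (Net.black {x}) (Net.white (l.erase x))).M ↔ ∃ y ∈ l.erase x, I = l.erase y := by
  have key : ∀ b ∈ l.erase x, ({x} : Finset ℕ) ∪ (l.erase x).erase b = l.erase b := by
    intro b hb
    have hbx : b ≠ x := Finset.ne_of_mem_erase hb
    ext a
    simp only [Finset.mem_union, Finset.mem_singleton, Finset.mem_erase]
    constructor
    · rintro (rfl | ⟨h1, h2, h3⟩)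
      · exact ⟨fun h => hbx h.symm, hx⟩
      · exact ⟨h1, h3⟩
    · rintro ⟨h1, h2⟩
      by_cases h : a = x
      · exact Or.inl h
      · exact Or.inr ⟨h1, h, h2⟩
  rw [dsum_M]
  constructor
  · rintro ⟨J, hJ, K, hK, rfl⟩
    obtain ⟨a, ha, rfl⟩ := Finset.mem_image.1 hJ
    obtain ⟨b, hb, rfl⟩ := Finset.mem_image.1 hK
    rw [Finset.mem_singleton] at ha
    subst ha
    exact ⟨b, hb, key b hb⟩
  · rintro ⟨y, hy, rfl⟩
    exact ⟨{x}, Finset.mem_image.2 ⟨x, Finset.mem_singleton_self x, rfl⟩, (l.erase x).erase y,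
      Finset.mem_image_of_mem _ hy, (key y hy).symm⟩

theorem valid_bw (l : Finset ℕ) (x : ℕ) (hx : x ∈ l) (hl : 2 ≤ l.card) :
    (Net.dsum (Net.white {x}) (Net.black (l.erase x))).Valid := by
  refine ⟨Finset.singleton_nonempty x, ?_, ?_⟩
  · show (l.erase x).Nonempty
    rw [← Finset.card_pos, Finset.card_erase_of_mem hx]; omega
  · show Disjoint ({x} : Finset ℕ) (l.erase x)
    simp

theorem valid_wb (l : Finset ℕ) (x : ℕ) (hx : x ∈ l) (hl : 2 ≤ l.card) :
    (Net.dsum (Net.black {x}) (Net.white (l.erase x))).Valid := by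
  refine ⟨Finset.singleton_nonempty x, ?_, ?_⟩
  · show (l.erase x).Nonempty
    rw [← Finset.card_pos, Finset.card_erase_of_mem hx]; omega
  · show Disjoint ({x} : Finset ℕ) (l.erase x)
    simp

theorem M_bw_sub (l : Finset ℕ) (x : ℕ) :
    (Net.dsum (Net.white {x}) (Net.black (l.erase x))).M ⊆ (Net.black l).M := by
  intro I hI
  obtain ⟨y, hy, rfl⟩ := (M_bw l x I).1 hI
  exact Finset.mem_image_of_mem _ (Finset.mem_of_mem_erase hy)

theorem M_wb_sub (l : Finset ℕ) (x : ℕ) (hx : x ∈ l) :
    (Net.dsum (Net.black {x}) (Net.white (l.erase x))).M ⊆ (Net.white l).M := by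
  intro I hI
  obtain ⟨y, hy, rfl⟩ := (M_wb l x hx I).1 hI
  exact Finset.mem_image_of_mem _ (Finset.mem_of_mem_erase hy)

theorem free_bw (l : Finset ℕ) (x : ℕ) (hx : x ∈ l) (hl : 2 ≤ l.card) :
    FreeCell (Net.dsum (Net.white {x}) (Net.black (l.erase x))) :=
  free_sub (mono_black l) (mono_dsum (valid_bw l x hx hl) (mono_white _) (mono_black _))
    (M_bw_sub l x) (free_black l)

theorem free_wb (l : Finset ℕ) (x : ℕ) (hx : x ∈ l) (hl : 2 ≤ l.card) :
    FreeCell (Net.dsum (Net.black {x}) (Net.white (l.erase x))) :=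
  free_sub (mono_white l) (mono_dsum (valid_wb l x hx hl) (mono_black _) (mono_white _))
    (M_wb_sub l x hx) (free_white l hl)

theorem dbw : BDbwStmt := by
  intro l hl
  refine ⟨?_, ?_, ?_, ?_⟩
  · -- black B
    intro z hz hz0 hzZ
    obtain ⟨c0, c1⟩ := closure_sub (mono_black l) hz
    have : ∃ I ∈ (Net.black l).M, z I = 0 := by
      by_contra hcon
      push Not at hcon
      exact hzZ (free_black l z c0 fun I hI => lt_of_le_of_ne (c1 I) (hcon I hI).symm)
    obtain ⟨I, hI, hIz⟩ := this
    obtain ⟨x, hx, rfl⟩ := Finset.mem_image.1 hI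
    obtain ⟨J, hJ⟩ : ∃ J, z J ≠ 0 := by
      by_contra hcon
      push Not at hcon
      exact hz0 (funext hcon)
    have hJM : J ∈ (Net.black l).M := by
      by_contra h
      exact hJ (c0 J h)
    obtain ⟨y, hy, rfl⟩ := Finset.mem_image.1 hJM
    have hxy : x ≠ y := by rintro rfl; exact hJ hIz
    have hcard : 2 ≤ l.card := Finset.one_lt_card.2 ⟨x, hx, y, hy, hxy⟩
    refine ⟨_, Net.Facet.black l x hx hcard, mem_closure (free_bw l x hx hcard) ?_
      (fun I _ => c1 I)⟩
    intro I hI
    by_cases h : I ∈ (Net.black l).M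
    · obtain ⟨a, ha, rfl⟩ := Finset.mem_image.1 h
      by_cases hax : a = x
      · rw [hax]; exact hIz
      · exact absurd ((M_bw l x _).2 ⟨a, Finset.mem_erase.2 ⟨hax, ha⟩, rfl⟩) hI
    · exact c0 I h
  · -- black D
    intro S' hS' z hz _ hsupp
    obtain ⟨c0, c1⟩ := closure_sub (mono_black l) hz
    cases hS' with
    | black _ x hx hcard =>
      refine mem_closure (free_bw l x hx hcard) ?_ (fun I _ => c1 I)
      intro I hI
      by_contra h
      exact hI (hsupp I h)
  · -- white B
    intro z hz hz0 hzZ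
    obtain ⟨c0, c1⟩ := closure_sub (mono_white l) hz
    by_cases hcard : 2 ≤ l.card
    · have : ∃ I ∈ (Net.white l).M, z I = 0 := by
        by_contra hcon
        push Not at hcon
        exact hzZ (free_white l hcard z c0 fun I hI => lt_of_le_of_ne (c1 I) (hcon I hI).symm)
      obtain ⟨I, hI, hIz⟩ := this
      obtain ⟨x, hx, rfl⟩ := Finset.mem_image.1 hI
      refine ⟨_, Net.Facet.white l x hx hcard, mem_closure (free_wb l x hx hcard) ?_
        (fun I _ => c1 I)⟩
      intro I hI
      by_cases h : I ∈ (Net.white l).M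
      · obtain ⟨a, ha, rfl⟩ := Finset.mem_image.1 h
        by_cases hax : a = x
        · rw [hax]; exact hIz
        · exact absurd ((M_wb l x hx _).2 ⟨a, Finset.mem_erase.2 ⟨hax, ha⟩, rfl⟩) hI
      · exact c0 I h
    · -- one label: Z is a single point
      exfalso
      have hc1 : l.card = 1 := by
        have := hl.card_pos
        omega
      obtain ⟨i, rfl⟩ := Finset.card_eq_one.1 hc1
      have hZ : (Net.white {i}).flat.Z ⊆ {fun I => if I = ∅ then (1 : ℝ) else 0} := by
        rintro _ ⟨x, _, rfl⟩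
        rw [Set.mem_singleton_iff]
        funext I
        rw [mono_white]
        have hM : I ∈ (Net.white {i}).M ↔ I = ∅ := by
          constructor
          · intro h
            obtain ⟨a, ha, rfl⟩ := Finset.mem_image.1 h
            rw [Finset.mem_singleton] at ha
            subst ha; simp
          · rintro rfl
            exact Finset.mem_image.2 ⟨i, Finset.mem_singleton_self i, by simp⟩
        by_cases h : I = ∅
        · rw [if_pos (hM.2 h), if_pos h, h]; simp
        · rw [if_neg (fun h' => h (hM.1 h')), if_neg h]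
      have hz' : z ∈ ({fun I => if I = ∅ then (1 : ℝ) else 0} : Set (Finset ℕ → ℝ)) :=
        closure_minimal hZ isClosed_singleton hz
      apply hzZ
      have hne : (Net.white {i}).flat.ev (fun _ => (1 : ℝ)) ∈ (Net.white {i}).flat.Z :=
        ⟨fun _ => 1, fun _ => one_pos, rfl⟩
      have := hZ hne
      rw [Set.mem_singleton_iff] at this hz'
      rw [hz', ← this]
      exact hne
  · -- white D
    intro S' hS' z hz _ hsupp
    obtain ⟨c0, c1⟩ := closure_sub (mono_white l) hz
    cases hS' with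
    | white _ x hx hcard =>
      refine mem_closure (free_wb l x hx hcard) ?_ (fun I _ => c1 I)
      intro I hI
      by_contra h
      exact hI (hsupp I h)

end ABCT.H36
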